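import Pool.Agent.G02.Stmts

/-!
# Squad G02, row EXB: primes for recipe B
-/

set_option autoImplicit false

namespace Pool.Agent.G02.H27

open Pool.Agent.G02 Pool.Agent.NJ

theorem leg_congr {l : ℕ} [Fact l.Prime] {a b : ℤ} (h : a ≡ b [ZMOD l]) :
    legendreSym l a = legendreSym l b := by
  rw [legendreSym.mod l a, legendreSym.mod l b, h]

theorem leg_ne {l : ℕ} [Fact l.Prime] {a : ℤ} (h : legendreSym l a ≠ 0) : ¬ (l : ℤ) ∣ a := by
  intro hd
  apply h
  rw [legendreSym.eq_zero_iff]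
  exact (ZMod.intCast_zmod_eq_zero_iff_dvd a l).2 hd

theorem leg_sq {l : ℕ} [Fact l.Prime] {a : ℤ} (h : ¬ (l : ℤ) ∣ a) :
    legendreSym l (a ^ 2) = 1 := by
  have h0 : (a : ZMod l) ≠ 0 := fun h1 => h ((ZMod.intCast_zmod_eq_zero_iff_dvd a l).1 h1)
  rw [pow_two, legendreSym.mul, ← pow_two]
  exact legendreSym.sq_one l h0

/-- coprimality from the primes -/
theorem cop_of {x : ℤ} {K : ℕ} (h : ∀ l : ℕ, l.Prime → l ∣ K → ¬ (l : ℤ) ∣ x) :
    IsCoprime x (K : ℤ) := by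
  rw [Int.isCoprime_iff_gcd_eq_one]
  by_contra hc
  have hc' : ¬ Nat.Coprime x.natAbs K := by
    intro h1
    apply hc
    unfold Nat.Coprime at h1
    rw [Int.gcd_def, Int.natAbs_natCast]
    exact h1
  obtain ⟨l, hl, h1, h2⟩ := Nat.Prime.not_coprime_iff_dvd.1 hc'
  exact h l hl h2 (Int.natCast_dvd.2 h1)

theorem exb (hres : ResStmt) (han : ANStmt) : ExbStmt := by
  intro k hk hodd N
  set K : ℕ := k.natAbs with hK
  have hKodd : Odd K := Int.natAbs_odd.2 hodd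
  have hKsq : Squarefree K := Int.squarefree_natAbs.2 hk
  have hKpos : 0 < K := Nat.pos_of_ne_zero (by
    intro h0
    rw [h0] at hKodd
    exact absurd hKodd (by decide))
  obtain ⟨s, hs, hs1, hsK⟩ : ∃ s : ℤ, (s = 1 ∨ s = -1) ∧ (K = 1 → s = 1) ∧ (K ≠ 1 → s = -1) := by
    by_cases h : K = 1
    · exact ⟨1, Or.inl rfl, fun _ => rfl, fun h' => absurd h h'⟩
    · exact ⟨-1, Or.inr rfl, fun h' => absurd h' h, fun _ => rfl⟩
  have hw : IsCoprime (-2 : ℤ) (K : ℤ) := by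
    apply cop_of
    intro l hl hlK hl2
    have h1 : l ∣ 2 := by
      have := Int.natCast_dvd.1 hl2
      simpa using this
    have h2 : l = 2 := (Nat.prime_dvd_prime_iff_eq hl Nat.prime_two).1 h1
    rw [h2] at hlK
    exact (Nat.not_even_iff_odd.2 hKodd) (even_iff_two_dvd.2 hlK)
  obtain ⟨T, u, v, hu8, hv8, huv, hvK, hJ, hleg⟩ :=
    hres K 3 5 (-2) s hKodd hKsq hw ⟨hs, hs1⟩
  -- non-divisibility modulo the primes of K
  have hvl : ∀ l : ℕ, l.Prime → l ∣ K → ¬ (l : ℤ) ∣ v := by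
    intro l hl hlK hd
    have h1 : IsUnit (l : ℤ) := hvK.isUnit_of_dvd' hd (Int.natCast_dvd_natCast.2 hlK)
    rw [Int.isUnit_iff_natAbs_eq] at h1
    exact hl.one_lt.ne' (by simpa using h1)
  have hmodl : ∀ (l : ℕ), l ∣ K → ∀ a b : ℤ, a ≡ b [ZMOD K] → a ≡ b [ZMOD l] :=
    fun l hl a b h => h.of_dvd (Int.natCast_dvd_natCast.2 hl)
  obtain ⟨a, ha⟩ : ∃ a : ℤ, u = 3 + 8 * a := by
    obtain ⟨c, hc⟩ := hu8.symm.dvd
    exact ⟨c, by linarith⟩
  obtain ⟨b, hb⟩ : ∃ b : ℤ, v = 5 + 8 * b := by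
    obtain ⟨c, hc⟩ := hv8.symm.dvd
    exact ⟨c, by linarith⟩
  have hcu : IsCoprime u ((8 * K : ℕ) : ℤ) := by
    push_cast
    refine IsCoprime.mul_right ⟨3, -(1 + 3 * a), by rw [ha]; ring⟩ (cop_of ?_)
    intro l hl hlK hd
    have : Fact l.Prime := ⟨hl⟩
    have h1 : (l : ℤ) ∣ T * v :=
      (Int.ModEq.dvd_iff (hmodl l hlK _ _ huv)).1 (Dvd.dvd.mul_left hd _)
    rcases (Nat.prime_iff_prime_int.1 hl).dvd_or_dvd h1 with h2 | h2
    · exact leg_ne (by rw [(hleg l (Int.natCast_dvd_natCast.2 hlK)).1]; norm_num) h2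
    · exact hvl l hl hlK h2
  have hcv : IsCoprime v ((8 * K : ℕ) : ℤ) := by
    push_cast
    exact IsCoprime.mul_right ⟨5, -(3 + 5 * b), by rw [hb]; ring⟩ hvK
  have hcw : IsCoprime (1 * u + 2 * v) ((8 * K : ℕ) : ℤ) := by
    push_cast
    refine IsCoprime.mul_right ⟨5, -(8 + 5 * (a + 2 * b)), by rw [ha, hb]; ring⟩ (cop_of ?_)
    intro l hl hlK hd
    have : Fact l.Prime := ⟨hl⟩
    have h0 : -2 * (1 * u + 2 * v) ≡ (T - 4) * v [ZMOD l] := by
      have h1 := hmodl l hlK _ _ huv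
      have h2 := h1.sub_right (4 * v)
      have e1 : -2 * (1 * u + 2 * v) = -2 * u - 4 * v := by ring
      have e2 : (T - 4) * v = T * v - 4 * v := by ring
      rw [e1, e2]
      exact h2
    have h1 : (l : ℤ) ∣ (T - 4) * v :=
      (Int.ModEq.dvd_iff h0).1 (Dvd.dvd.mul_left hd _)
    rcases (Nat.prime_iff_prime_int.1 hl).dvd_or_dvd h1 with h2 | h2
    · exact leg_ne (by rw [(hleg l (Int.natCast_dvd_natCast.2 hlK)).2]; norm_num) h2
    · exact hvl l hl hlK h2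
  obtain ⟨p, q, r, hp, hq, hr, hNp, hNq, hpq, hpu, hqv, hrr⟩ :=
    han 1 2 u v (8 * K) isCoprime_one_left (by norm_num) (by norm_num) (by omega)
      ⟨4 * K, by ring⟩ hcu hcv hcw (Or.inl (by norm_num)) N
  have hp8 : (p : ℤ) ≡ u [ZMOD 8] := hpu.of_dvd ⟨K, by push_cast; ring⟩
  have hq8 : (q : ℤ) ≡ v [ZMOD 8] := hqv.of_dvd ⟨K, by push_cast; ring⟩
  have hpK : (p : ℤ) ≡ u [ZMOD K] := hpu.of_dvd ⟨8, by push_cast; ring⟩
  have hqK : (q : ℤ) ≡ v [ZMOD K] := hqv.of_dvd ⟨8, by push_cast; ring⟩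
  have mp : p % 8 = 3 := by
    have h1 : (p : ℤ) % 8 = 3 := by
      have := hp8.trans hu8
      unfold Int.ModEq at this
      omega
    omega
  have mq : q % 8 = 5 := by
    have h1 : (q : ℤ) % 8 = 5 := by
      have := hq8.trans hv8
      unfold Int.ModEq at this
      omega
    omega
  have hr' : (r : ℤ) = p + 2 * q := by rw [hrr]; ring
  refine ⟨p, q, r, hNp, ⟨hk, hp, hq, hr, mp, mq, hr', ?_⟩, ?_⟩
  · intro l _ hl2 hlk
    have hl : l.Prime := Fact.out
    have hlK : l ∣ K := by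
      rw [hK]
      exact Int.natCast_dvd.1 hlk
    obtain ⟨g1, g2⟩ := hleg l (Int.natCast_dvd_natCast.2 hlK)
    have hq' : ¬ (l : ℤ) ∣ (q : ℤ) := fun hd =>
      hvl l hl hlK ((Int.ModEq.dvd_iff (hmodl l hlK _ _ hqK)).1 hd)
    have c1 : -2 * (p : ℤ) ≡ T * q [ZMOD l] := by
      have h1 : -2 * (p : ℤ) ≡ -2 * u [ZMOD l] := (hmodl l hlK _ _ hpK).mul_left _
      have h3 : T * (q : ℤ) ≡ T * v [ZMOD l] := (hmodl l hlK _ _ hqK).mul_left _
      exact (h1.trans (hmodl l hlK _ _ huv)).trans h3.symm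
    have c2 : -2 * (r : ℤ) ≡ (T - 4) * q [ZMOD l] := by
      have e1 : -2 * (r : ℤ) = -2 * p - 4 * q := by rw [hr']; ring
      have e2 : (T - 4) * (q : ℤ) = T * q - 4 * q := by ring
      rw [e1, e2]
      exact c1.sub_right _
    constructor
    · have h1 : -(2 * (p : ℤ) * q) ≡ T * q ^ 2 [ZMOD l] := by
        have e1 : -(2 * (p : ℤ) * q) = (-2 * p) * q := by ring
        have e2 : T * (q : ℤ) ^ 2 = T * q * q := by ring
        rw [e1, e2]
        exact c1.mul_right _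
      rw [leg_congr h1, legendreSym.mul, g1, leg_sq hq', mul_one]
    · have h1 : (2 : ℤ) ^ 2 * ((p : ℤ) * r) ≡ T * (T - 4) * q ^ 2 [ZMOD l] := by
        have e1 : (2 : ℤ) ^ 2 * ((p : ℤ) * r) = (-2 * p) * (-2 * r) := by ring
        have e2 : T * (T - 4) * (q : ℤ) ^ 2 = (T * q) * ((T - 4) * q) := by ring
        rw [e1, e2]
        exact c1.mul c2
      have h2 : ¬ (l : ℤ) ∣ 2 := by
        intro hd
        have : l ∣ 2 := by exact_mod_cast hd
        exact hl2 ((Nat.prime_dvd_prime_iff_eq hl Nat.prime_two).1 this)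
      have h3 := leg_congr h1
      rw [legendreSym.mul l (2 ^ 2), leg_sq h2, one_mul, legendreSym.mul l (T * (T - 4)),
        legendreSym.mul l T, g1, g2, leg_sq hq', mul_one, mul_one] at h3
      exact h3
  · intro hk1 hk2 _
    have hK1 : K ≠ 1 := by
      intro h1
      rcases Int.natAbs_eq k with h2 | h2
      · apply hk2; rw [h2, ← hK, h1]; rfl
      · apply hk1; rw [h2, ← hK, h1]; rfl
    have hq4 : q % 4 = 1 := by omega
    have hqo : q ≠ 2 := by intro h; rw [h] at mq; norm_num at mq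
    have e1 : legendreSym q k = legendreSym q (K : ℤ) := by
      rcases Int.natAbs_eq k with h2 | h2
      · rw [← hK] at h2
        exact congrArg _ h2
      · rw [← hK] at h2
        have h3 : k = (-1) * (K : ℤ) := by rw [h2]; ring
        have h4 : legendreSym q (-1) = 1 := by
          rw [legendreSym.at_neg_one hqo, ZMod.χ₄_nat_one_mod_four hq4]
        rw [congrArg (legendreSym q) h3, legendreSym.mul, h4, one_mul]
    rw [e1, jacobiSym.legendreSym.to_jacobiSym,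
      ← jacobiSym.quadratic_reciprocity_one_mod_four hq4 hKodd, jacobiSym.mod_left, hqK,
      ← jacobiSym.mod_left, hJ, hsK hK1]

end Pool.Agent.G02.H27
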