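import Pool.Agent.G02.StmtsS
import Mathlib.NumberTheory.FLT.MasonStothers

/-! Squad G02, row RHB. -/

set_option autoImplicit false

namespace Pool.Agent.G02.H27R

open Polynomial UniqueFactorizationMonoid UniqueFactorizationDomain EuclideanDomain

/-- The divisibility of the Wronskian. -/
theorem dvdW {a b c : ℚ[X]} (hab : IsCoprime a b) (hsum : a + b + c = 0) :
    divRadical (a * b * c) ∣ wronskian a b := by
  have hbc : IsCoprime b c := by
    have h1 : c = -a + -1 * b := by linear_combination hsum
    rw [h1]
    have h2 : IsCoprime b (-a) := hab.symm.neg_right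
    have h3 := IsCoprime.add_mul_left_right h2 (-1)
    have h4 : -a + b * -1 = -a + -1 * b := by ring
    rwa [h4] at h3
  have hca : IsCoprime c a := by
    have h1 : c = -b + -1 * a := by linear_combination hsum
    rw [h1]
    have h2 : IsCoprime a (-b) := hab.neg_right
    have h3 := IsCoprime.add_mul_left_right h2 (-1)
    have h4 : -b + a * -1 = -b + -1 * a := by ring
    rw [h4] at h3
    exact h3.symm
  have wbc : wronskian a b = wronskian b c := wronskian_eq_of_sum_zero hsum
  have adr_dvd_w := divRadical_dvd_wronskian_left a b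
  have bdr_dvd_w := divRadical_dvd_wronskian_right a b
  have cdr_dvd_w := divRadical_dvd_wronskian_right b c
  rw [← wbc] at cdr_dvd_w
  rw [divRadical_mul (hca.symm.mul_left hbc), divRadical_mul hab]
  exact (hca.divRadical.symm.mul_left hbc.divRadical).mul_dvd
    (hab.divRadical.mul_dvd adr_dvd_w bdr_dvd_w) cdr_dvd_w

/-- A polynomial of derivative zero is constant. -/
theorem degz {a : ℚ[X]} (h : derivative a = 0) : a.natDegree = 0 :=
  Polynomial.derivative_eq_zero.1 h

/-- Degree of the Wronskian when the degrees agree. -/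
theorem degW {a b : ℚ[X]} (hb : b ≠ 0) (hd : a.natDegree = b.natDegree)
    (hn : b.natDegree ≠ 0) (hw : wronskian a b ≠ 0) :
    (wronskian a b).natDegree + 2 ≤ a.natDegree + b.natDegree := by
  have hlb : b.leadingCoeff ≠ 0 := leadingCoeff_ne_zero.2 hb
  obtain ⟨k, hk⟩ : ∃ k : ℚ, k = a.leadingCoeff / b.leadingCoeff := ⟨_, rfl⟩
  have h1 : wronskian (a - C k * b) b = wronskian a b := by
    unfold wronskian
    rw [derivative_sub, derivative_mul, derivative_C]
    ring
  have h2 : (a - C k * b).natDegree < b.natDegree := by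
    have h3 : (a - C k * b).degree < b.degree := by
      have hka : k ≠ 0 := by
        rw [hk]
        refine div_ne_zero (leadingCoeff_ne_zero.2 ?_) hlb
        rintro rfl
        exact hn (by rw [← hd]; simp)
      have ha0 : a ≠ 0 := by
        rintro rfl
        exact hn (by rw [← hd]; simp)
      have h4 : (C k * b).degree = b.degree := by
        rw [degree_C_mul hka]
      have h5 : a.degree = (C k * b).degree := by
        rw [h4, degree_eq_natDegree ha0, degree_eq_natDegree hb, hd]
      have h6 : a.leadingCoeff = (C k * b).leadingCoeff := by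
        rw [leadingCoeff_mul, leadingCoeff_C, hk]
        field_simp
      have h7 := degree_sub_lt h5 ha0 h6
      rw [h5, h4] at h7
      exact h7
    rcases eq_or_ne (a - C k * b) 0 with h0 | h0
    · rw [h0, natDegree_zero]
      exact Nat.pos_of_ne_zero hn
    · exact natDegree_lt_natDegree h0 h3
  have h8 := natDegree_wronskian_lt_add (a := a - C k * b) (b := b) (by rw [h1]; exact hw)
  rw [h1] at h8
  omega

/-- The refined inequality. -/
theorem abc2 {a b c : ℚ[X]} (ha : a ≠ 0) (hb : b ≠ 0) (hc : c ≠ 0)
    (hab : IsCoprime a b) (hsum : a + b + c = 0) (hn : b.natDegree ≠ 0)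
    (h1 : a.natDegree = b.natDegree) (h2 : b.natDegree = c.natDegree) :
    b.natDegree + 2 ≤ (radical (a * b * c)).natDegree := by
  have hdv := dvdW hab hsum
  have hw : wronskian a b ≠ 0 := by
    intro h0
    obtain ⟨_, gb⟩ := hab.wronskian_eq_zero_iff.mp h0
    exact hn (degz gb)
  have hD := degW hb h1 hn hw
  have ab_nz := mul_ne_zero ha hb
  have abc_nz := mul_ne_zero ab_nz hc
  have hle := Polynomial.natDegree_le_of_dvd hdv hw
  have hs : a.natDegree + b.natDegree + c.natDegree =
      (divRadical (a * b * c)).natDegree + (radical (a * b * c)).natDegree := by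
    calc
      a.natDegree + b.natDegree + c.natDegree = (a * b * c).natDegree := by
        rw [Polynomial.natDegree_mul ab_nz hc, Polynomial.natDegree_mul ha hb]
      _ = ((divRadical (a * b * c)) * (radical (a * b * c))).natDegree := by
        rw [mul_comm _ (radical _), radical_mul_divRadical]
      _ = (divRadical (a * b * c)).natDegree + (radical (a * b * c)).natDegree := by
        rw [← Polynomial.natDegree_mul (divRadical_ne_zero abc_nz) radical_ne_zero]
  omega

/-- The number of complex roots. -/
theorem card_roots {P : ℚ[X]} (hP : P ≠ 0) :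
    ∃ F : Finset ℂ, (∀ t : ℂ, t ∈ F ↔ aeval t P = 0) ∧ F.card = (radical P).natDegree := by
  classical
  have hr0 : radical P ≠ 0 := radical_ne_zero
  have hsep : (radical P).Separable := PerfectField.separable_iff_squarefree.2 squarefree_radical
  have hcard := Polynomial.card_rootSet_eq_natDegree (K := ℂ) hsep
    (IsAlgClosed.splits _)
  refine ⟨((radical P).rootSet ℂ).toFinset, ?_, ?_⟩
  · intro t
    rw [Set.mem_toFinset, mem_rootSet]
    constructor
    · rintro ⟨-, h⟩
      have hd : radical P ∣ P := radical_dvd_self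
      obtain ⟨q, hq⟩ := hd
      rw [hq, map_mul, h, zero_mul]
    · intro h
      refine ⟨hr0, ?_⟩
      obtain ⟨n, hn⟩ := UniqueFactorizationMonoid.exists_dvd_radical_self_pow hP
      obtain ⟨q, hq⟩ := hn
      have h2 : (aeval t (radical P)) ^ n = 0 := by
        rw [← map_pow, hq, map_mul, h, zero_mul]
      exact eq_zero_of_pow_eq_zero h2
  · rw [Set.toFinset_card]
    exact hcard

theorem rhb : RhbStmt := by
  intro f g hco hnc hf hg hw
  have h4 : (4 : ℚ[X]) ≠ 0 := by
    have : (4 : ℚ[X]) = C 4 := by rw [map_ofNat]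
    rw [this]
    exact C_ne_zero.2 (by norm_num)
  have hu : IsUnit (-4 : ℚ[X]) := by
    have : (-4 : ℚ[X]) = C (-4) := by rw [map_neg, map_ofNat]
    rw [this]
    exact isUnit_C.2 (isUnit_iff_ne_zero.2 (by norm_num))
  have hb0 : -4 * g ≠ 0 := mul_ne_zero (neg_ne_zero.2 h4) hg
  have hc0 : -(f - 4 * g) ≠ 0 := neg_ne_zero.2 hw
  have hab : IsCoprime f (-4 * g) := (isCoprime_mul_unit_left_right hu f g).2 hco
  have hsum : f + -4 * g + -(f - 4 * g) = 0 := by ring
  have hdb : (-4 * g).natDegree = g.natDegree := by
    have : (-4 : ℚ[X]) = C (-4) := by rw [map_neg, map_ofNat]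
    rw [this, natDegree_C_mul (by norm_num)]
  have hdc : (-(f - 4 * g)).natDegree = (f - 4 * g).natDegree := natDegree_neg _
  have hP : f * (-4 * g) * -(f - 4 * g) ≠ 0 := mul_ne_zero (mul_ne_zero hf hb0) hc0
  obtain ⟨F, hF1, hF2⟩ := card_roots hP
  refine ⟨F, ?_, ?_, ?_⟩
  · intro t
    rw [hF1 t]
    have h5 : f * (-4 * g) * -(f - 4 * g) = 4 * (f * g * (f - 4 * g)) := by ring
    rw [h5, map_mul, map_ofNat]
    constructor
    · intro h
      exact (mul_eq_zero.1 h).resolve_left (by norm_num)
    · intro h
      rw [h, mul_zero]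
  · rintro ⟨h1, h2⟩
    have hn : (-4 * g).natDegree ≠ 0 := by
      rw [hdb]
      intro h0
      exact hnc ⟨by rw [h1, h0], h0⟩
    have h3 := abc2 hf hb0 hc0 hab hsum hn (by rw [hdb, h1]) (by rw [hdb, hdc, h2])
    rw [hF2, h1, max_self]
    rw [hdb] at h3
    exact h3
  · rw [hF2]
    rcases Polynomial.abc hf hb0 hc0 hab hsum with ⟨h1, h2, _⟩ | ⟨h1, h2, _⟩
    · rw [hdb] at h2
      rcases le_total f.natDegree g.natDegree with h | h
      · rw [max_eq_right h]
        exact h2
      · rw [max_eq_left h]
        exact h1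
    · exfalso
      refine hnc ⟨degz h1, ?_⟩
      have := degz h2
      rw [hdb] at this
      exact this

end Pool.Agent.G02.H27R
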